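import Pool.Agent.R969.AL.Main
set_option autoImplicit false

/-! The spectral `L^p` formula on `L^∞(Ω, H₃(𝕆_ℂ))` is a norm. -/

namespace Pool.Agent.Results.MP_de6bc3_an.AlbertNorm

open MeasureTheory Pool.Agent.R969.AL

/-- For every measure space `(Ω, μ)`, every positive trace `τ` on `L^∞(Ω, H₃(𝕆_ℂ))` and every `1 ≤ p < ∞`:
the power `(x* ∘ x)^{p/2}` exists and is unique, its trace is a nonnegative real number, and
`‖x + y‖_p ≤ ‖x‖_p + ‖y‖_p` for all `x, y`. -/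
theorem result {Ω : Type*} [MeasurableSpace Ω] (μ : Measure Ω) (τ : LInf μ →ₗ[ℂ] ℂ) (hτ : IsPosTrace τ)
    (p : ℝ) (hp : 1 ≤ p) :
    (∀ x : LInf μ, (∃! c : LInf μ, IsPower (p / 2) (mul (inv x) x) c) ∧
      IsPower (p / 2) (mul (inv x) x) (power (p / 2) (mul (inv x) x)) ∧
      0 ≤ (τ (power (p / 2) (mul (inv x) x))).re ∧ (τ (power (p / 2) (mul (inv x) x))).im = 0) ∧
    ∀ x y : LInf μ, pnorm τ p (x + y) ≤ pnorm τ p x + pnorm τ p y :=
  main τ hτ p hp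

end Pool.Agent.Results.MP_de6bc3_an.AlbertNorm
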